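import Mathlib

set_option autoImplicit false

namespace Pool.Agent.Results.MP_59918e_co.EquistableNotWeaklyCIS

/-- A (finite) graph is equistable if there is a nonnegative real weight function on its vertices
such that a set of vertices is a maximal stable set exactly when its total weight is `1`. -/
def IsEquistable {V : Type} [Fintype V] (G : SimpleGraph V) : Prop :=
  ∃ φ : V → ℝ, (∀ v, 0 ≤ φ v) ∧
    ∀ S : Finset V, Maximal G.IsIndepSet (S : Set V) ↔ ∑ v ∈ S, φ v = 1

/-- A family of maximal cliques such that any two adjacent vertices lie in a common member. -/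
def IsEdgeCovering {V : Type} (G : SimpleGraph V) (C : Set (Set V)) : Prop :=
  (∀ A ∈ C, Maximal G.IsClique A) ∧ ∀ u v : V, G.Adj u v → ∃ A ∈ C, u ∈ A ∧ v ∈ A

/-- A family of maximal stable sets such that any two distinct non-adjacent vertices lie in a
common member. -/
def IsNonEdgeCovering {V : Type} (G : SimpleGraph V) (S : Set (Set V)) : Prop :=
  (∀ B ∈ S, Maximal G.IsIndepSet B) ∧
    ∀ u v : V, u ≠ v → ¬ G.Adj u v → ∃ B ∈ S, u ∈ B ∧ v ∈ B

/-- Weakly CIS graphs: there are an edge covering family of maximal cliques and a non-edge covering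
family of maximal stable sets which are cross-intersecting. -/
def IsWeaklyCIS {V : Type} (G : SimpleGraph V) : Prop :=
  ∃ C S : Set (Set V), IsEdgeCovering G C ∧ IsNonEdgeCovering G S ∧
    ∀ A ∈ C, ∀ B ∈ S, (A ∩ B).Nonempty

/-! ### The counterexample: the complement of the line graph of a triangle-free graph `H`
with 9 vertices and 14 edges. -/

/-- first endpoints of the 14 edges of `H` -/
def e1 : Fin 14 → Fin 9 := ![0, 0, 0, 1, 1, 1, 2, 2, 3, 4, 4, 5, 6, 7]
/-- second endpoints of the 14 edges of `H` -/
def e2 : Fin 14 → Fin 9 := ![2, 4, 6, 3, 4, 6, 3, 7, 5, 5, 7, 8, 8, 8]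
/-- integer weights, with sum `152` at every vertex of `H` -/
def w : Fin 14 → ℕ := ![52, 47, 53, 67, 27, 58, 35, 65, 50, 57, 21, 45, 41, 66]

/-- the edges `i` and `j` of `H` share an endpoint -/
abbrev meets (i j : Fin 14) : Prop := e1 i = e1 j ∨ e1 i = e2 j ∨ e2 i = e1 j ∨ e2 i = e2 j

/-- the edge `i` is incident with the vertex `v` -/
abbrev inc (v : Fin 9) (i : Fin 14) : Prop := e1 i = v ∨ e2 i = v

/-- the complement of the line graph of `H`: two edges are adjacent iff they are disjoint -/
def G : SimpleGraph (Fin 14) where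
  Adj i j := ¬ meets i j
  symm := ⟨by decide⟩
  loopless := ⟨by decide⟩

/-- the star of `v` as a finset -/
def star (v : Fin 9) : Finset (Fin 14) := Finset.univ.filter (inc v)

/-- two chosen edges at each vertex -/
def f1 : Fin 9 → Fin 14 := ![0, 3, 0, 3, 1, 8, 2, 7, 11]
/-- two chosen edges at each vertex -/
def f2 : Fin 9 → Fin 14 := ![1, 4, 6, 6, 4, 9, 5, 10, 12]

/-- subset-sum search with pruning -/
def check : List (Fin 14) → ℕ → List (Fin 14) → Bool
  | [], r, acc => (r != 0) || decide (∃ v : Fin 9, acc.reverse = (List.finRange 14).filter (inc v))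
  | (i :: t), r, acc => check t r acc && (if w i ≤ r then check t (r - w i) (i :: acc) else true)

theorem check_sound : ∀ (l : List (Fin 14)) (r : ℕ) (acc : List (Fin 14)),
    check l r acc = true → ∀ S : Finset (Fin 14),
      ((l.filter (· ∈ S)).map w).sum = r →
      ∃ v : Fin 9, acc.reverse ++ l.filter (· ∈ S) = (List.finRange 14).filter (inc v)
  | [], r, acc, h, S, hs => by
      simp only [check, Bool.or_eq_true, bne_iff_ne, ne_eq, decide_eq_true_eq] at h
      simp only [List.filter_nil, List.map_nil, List.sum_nil] at hs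
      rcases h with h | h
      · exact absurd hs.symm h
      · simpa using h
  | (i :: t), r, acc, h, S, hs => by
      simp only [check, Bool.and_eq_true] at h
      obtain ⟨ha, hb⟩ := h
      by_cases hi : i ∈ S
      · simp only [List.filter_cons, hi, decide_true, if_true, List.map_cons, List.sum_cons] at hs ⊢
        have hle : w i ≤ r := by omega
        rw [if_pos hle] at hb
        have := check_sound t (r - w i) (i :: acc) hb S (by omega)
        simpa using this
      · simp only [List.filter_cons, hi, decide_false, Bool.false_eq_true, if_false] at hs ⊢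
        exact check_sound t r acc ha S hs

set_option maxRecDepth 100000 in
theorem check_true : check (List.finRange 14) 152 [] = true := by decide +kernel

theorem sum_eq_list (S : Finset (Fin 14)) :
    ∑ i ∈ S, w i = (((List.finRange 14).filter (· ∈ S)).map w).sum := by
  have h1 : ∑ i ∈ S, w i = ∑ i ∈ ((List.finRange 14).filter (· ∈ S)).toFinset, w i := by
    congr 1
    ext i
    simp
  rw [h1, List.sum_toFinset]
  exact (List.nodup_finRange 14).filter _

theorem star_of_sum (S : Finset (Fin 14)) (h : ∑ i ∈ S, w i = 152) : ∃ v, S = star v := by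
  rw [sum_eq_list] at h
  obtain ⟨v, hv⟩ := check_sound _ _ _ check_true S h
  refine ⟨v, ?_⟩
  simp only [List.reverse_nil, List.nil_append] at hv
  ext i
  have : i ∈ (List.finRange 14).filter (· ∈ S) ↔ i ∈ (List.finRange 14).filter (inc v) := by
    rw [hv]
  simpa [star] using this

theorem sum_star : ∀ v, ∑ i ∈ star v, w i = 152 := by decide +kernel

theorem meets_symm : ∀ i j, meets i j → meets j i := by decide

theorem inc_meets : ∀ (v : Fin 9) (i j : Fin 14), inc v i → inc v j → meets i j := by decide +kernel

/-- Because `H` is triangle-free, an edge meeting two distinct intersecting edges contains their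
common vertex. -/
theorem tri : ∀ i j : Fin 14, i ≠ j → meets i j →
    ∃ v, inc v i ∧ inc v j ∧ ∀ k, meets k i → meets k j → inc v k := by decide +kernel

theorem star_maximal : ∀ (v : Fin 9) (k : Fin 14), ¬ inc v k → ∃ i, inc v i ∧ ¬ meets k i := by
  decide +kernel

theorem deg_two : ∀ i : Fin 14, ∃ v j, i ≠ j ∧ inc v i ∧ inc v j := by decide +kernel

theorem f_spec : ∀ v, f1 v ≠ f2 v ∧ inc v (f1 v) ∧ inc v (f2 v) ∧
    ∀ k, meets k (f1 v) → meets k (f2 v) → inc v k := by decide +kernel

theorem star_indep (v : Fin 9) : G.IsIndepSet (star v : Set (Fin 14)) := by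
  intro i hi j hj _ hadj
  simp only [star, Finset.coe_filter, Finset.mem_univ, true_and, Set.mem_ofPred_eq] at hi hj
  exact hadj (inc_meets v i j hi hj)

theorem indep_meets {S : Set (Fin 14)} (hS : G.IsIndepSet S) {i j : Fin 14} (hi : i ∈ S)
    (hj : j ∈ S) : meets i j := by
  by_cases hij : i = j
  · subst hij; exact Or.inl rfl
  · by_contra hm
    exact hS hi hj hij hm

theorem maximal_star (v : Fin 9) : Maximal G.IsIndepSet (star v : Set (Fin 14)) := by
  refine ⟨star_indep v, ?_⟩
  intro T hT hle k hk
  by_contra hkv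
  have hkv' : ¬ inc v k := by
    intro h
    apply hkv
    simpa [star] using h
  obtain ⟨i, hi, hki⟩ := star_maximal v k hkv'
  have hiT : i ∈ T := hle (by simpa [star] using hi)
  exact hki (indep_meets hT hk hiT)

theorem maximal_iff (S : Set (Fin 14)) : Maximal G.IsIndepSet S ↔ ∃ v, S = (star v : Set (Fin 14)) := by
  constructor
  · intro h
    -- `S` is contained in some star
    have key : ∃ v, S ⊆ (star v : Set (Fin 14)) := by
      by_cases h2 : ∃ i ∈ S, ∃ j ∈ S, i ≠ j
      · obtain ⟨i, hi, j, hj, hij⟩ := h2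
        obtain ⟨v, _, _, hv⟩ := tri i j hij (indep_meets h.1 hi hj)
        refine ⟨v, fun k hk => ?_⟩
        have := hv k (indep_meets h.1 hk hi) (indep_meets h.1 hk hj)
        simpa [star] using this
      · push Not at h2
        by_cases h3 : ∃ i, i ∈ S
        · obtain ⟨i, hi⟩ := h3
          obtain ⟨v, j, _, hvi, _⟩ := deg_two i
          refine ⟨v, fun k hk => ?_⟩
          have : k = i := h2 k hk i hi
          subst this
          simpa [star] using hvi
        · refine ⟨0, fun k hk => absurd ⟨k, hk⟩ h3⟩
    obtain ⟨v, hv⟩ := key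
    exact ⟨v, Set.Subset.antisymm hv (h.2 (star_indep v) hv)⟩
  · rintro ⟨v, rfl⟩
    exact maximal_star v

theorem equistable : IsEquistable G := by
  refine ⟨fun i => (w i : ℝ) / 152, fun i => by positivity, fun S => ?_⟩
  rw [maximal_iff]
  have hsum : ∑ v ∈ S, (w v : ℝ) / 152 = ((∑ v ∈ S, w v : ℕ) : ℝ) / 152 := by
    rw [← Finset.sum_div]; push_cast; rfl
  rw [hsum]
  constructor
  · rintro ⟨v, hv⟩
    have : S = star v := by exact_mod_cast hv
    rw [this, sum_star]
    norm_num
  · intro h
    have h1 : ((∑ v ∈ S, w v : ℕ) : ℝ) = 152 := by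
      field_simp at h
      exact h
    have h2 : ∑ v ∈ S, w v = 152 := by exact_mod_cast h1
    obtain ⟨v, hv⟩ := star_of_sum S h2
    exact ⟨v, by rw [hv]⟩

/-- An indicator as a natural number. -/
noncomputable def ind (A : Set (Fin 14)) (i : Fin 14) : ℕ := by
  classical exact if i ∈ A then 1 else 0

theorem not_weaklyCIS : ¬ IsWeaklyCIS G := by
  rintro ⟨C, S, ⟨hC, hCe⟩, ⟨hS, hSe⟩, hCS⟩
  -- take any edge of `G`
  obtain ⟨A, hA, _, _⟩ := hCe 0 3 (by show ¬ meets 0 3; decide)
  have hclique := (hC A hA).1
  -- `A` hits every star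
  have hit : ∀ v : Fin 9, ∃ i ∈ A, inc v i := by
    intro v
    obtain ⟨hne, h1, h2, h3⟩ := f_spec v
    obtain ⟨B, hB, hB1, hB2⟩ := hSe (f1 v) (f2 v) hne
      (fun hadj => hadj (inc_meets v _ _ h1 h2))
    obtain ⟨i, hiA, hiB⟩ := hCS A hA B hB
    exact ⟨i, hiA, h3 i (indep_meets (hS B hB).1 hiB hB1) (indep_meets (hS B hB).1 hiB hB2)⟩
  have uniq : ∀ i ∈ A, ∀ j ∈ A, meets i j → i = j := by
    intro i hi j hj hm
    by_contra hij
    exact hclique hi hj hij hm
  have hb : ∀ i, ind A i = 0 ∨ ind A i = 1 := by
    intro i; unfold ind; split <;> simp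
  have hmem : ∀ i, i ∈ A → ind A i = 1 := by
    intro i hi; unfold ind; simp [hi]
  have hmem' : ∀ i, ind A i = 1 → i ∈ A := by
    intro i hi; unfold ind at hi; by_contra h; simp [h] at hi
  have one : ∀ v : Fin 9, ∑ i ∈ star v, ind A i = 1 := by
    intro v
    obtain ⟨i, hiA, hiv⟩ := hit v
    rw [Finset.sum_eq_single i]
    · exact hmem i hiA
    · intro j hj hji
      rcases hb j with h | h
      · exact h
      · exfalso
        apply hji
        apply uniq j (hmem' j h) i hiA
        apply inc_meets v _ _ _ hiv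
        simpa [star] using hj
    · intro h
      exact absurd (by simpa [star] using hiv) h
  have hs : ∀ v : Fin 9, ∑ i ∈ star v, ind A i = ∑ i, if inc v i then ind A i else 0 := by
    intro v
    rw [star, Finset.sum_filter]
  have tot : ∑ v : Fin 9, ∑ i ∈ star v, ind A i = 9 := by
    rw [Finset.sum_congr rfl (fun v _ => one v)]; simp
  have tot2 : ∑ v : Fin 9, ∑ i ∈ star v, ind A i = 2 * ∑ i, ind A i := by
    rw [Finset.sum_congr rfl (fun v _ => hs v), Finset.sum_comm, Finset.mul_sum]
    apply Finset.sum_congr rfl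
    intro i _
    rw [← Finset.sum_filter, Finset.sum_const, smul_eq_mul]
    congr 1
    revert i
    decide +kernel
  omega

/-- **Negative answer to Q1.** There is a finite simple graph which is equistable but not
weakly CIS. -/
theorem result : ∃ (V : Type) (_ : Fintype V) (G : SimpleGraph V),
    IsEquistable G ∧ ¬ IsWeaklyCIS G :=
  ⟨Fin 14, inferInstance, G, equistable, not_weaklyCIS⟩

end Pool.Agent.Results.MP_59918e_co.EquistableNotWeaklyCIS
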